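import Pool.Agent.H642.KK.Stm2

set_option autoImplicit false

/-! The conjugacy criterion for compacta with finitely many limit points (task F1). -/

namespace Pool.Agent.H84.KK

open Set TopologicalSpace
open Pool.Agent.H642.CK (Io Nb Om hm Cj Dn fin_io io_map)
open Pool.Agent.H642.KK (Col CIso S_F1)

section

variable {K : Type} [TopologicalSpace K]

theorem io_countable [SecondCountableTopology K] : {x : K | Io x}.Countable := by
  refine Set.PairwiseDisjoint.countable_of_isOpen (s := fun x : K => ({x} : Set K)) ?_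
    (fun x hx => hx) (fun x _ => singleton_nonempty x)
  intro x _ y _ hxy
  exact disjoint_singleton.2 hxy

theorem K_countable [SecondCountableTopology K] (hL : {x : K | ¬ Io x}.Finite) : Countable K := by
  rw [← Set.countable_univ_iff]
  refine (io_countable.union hL.countable).mono fun x _ => ?_
  by_cases h : Io x
  · exact Or.inl h
  · exact Or.inr h

theorem col_countable [CompactSpace K] [T2Space K] [SecondCountableTopology K]
    [TotallyDisconnectedSpace K] (hL : {x : K | ¬ Io x}.Finite) : (Col K).Countable := by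
  have : Countable (Clopens K) :=
    (TopologicalSpace.Clopens.countable_iff_secondCountable (X := K)).2 inferInstance
  have : Finite {x : K | ¬ Io x} := hL.to_subtype
  rw [← Set.countable_coe_iff]
  refine Function.Injective.countable
    (f := fun c : Col K => fun y : {x : K | ¬ Io x} => (⟨c.1 ⁻¹' {y.1}, c.2.2.2 y.1⟩ : Clopens K)) ?_
  intro c c' h
  apply Subtype.ext
  funext x
  have h1 := congrArg (fun U : Clopens K => (U : Set K)) (congrFun h ⟨c.1 x, c.2.1 x⟩)
  have h2 : c.1 ⁻¹' {c.1 x} = c'.1 ⁻¹' {c.1 x} := h1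
  have h3 : x ∈ c'.1 ⁻¹' {c.1 x} := by
    rw [← h2]
    rfl
  exact (mem_singleton_iff.1 h3).symm

theorem exists_retract [CompactSpace K] [T2Space K] [TotallyDisconnectedSpace K]
    (s : Set K) (hs : s.Finite) : s.Nonempty → ∃ c : K → K, (∀ x, c x ∈ s) ∧ (∀ y ∈ s, c y = y) ∧
      ∀ y, IsClopen (c ⁻¹' {y}) := by
  classical
  refine Set.Finite.induction_on_subset
    (motive := fun s _ => s.Nonempty → ∃ c : K → K, (∀ x, c x ∈ s) ∧ (∀ y ∈ s, c y = y) ∧
      ∀ y, IsClopen (c ⁻¹' {y})) s hs ?_ ?_
  · intro h
    exact (Set.not_nonempty_empty h).elim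
  · intro a t ha hts hat ih _
    by_cases ht : t.Nonempty
    · obtain ⟨c, h1, h2, h3⟩ := ih ht
      have htf : t.Finite := hs.subset hts
      obtain ⟨U, hU, haU, hUt⟩ := compact_exists_isClopen_in_isOpen
        (htf.isClosed.isOpen_compl) (show a ∈ tᶜ from hat)
      refine ⟨fun x => if x ∈ U then a else c x, ?_, ?_, ?_⟩
      · intro x
        by_cases hx : x ∈ U
        · simp [hx]
        · simp only [if_neg hx]
          exact Or.inr (h1 x)
      · intro y hy
        rcases hy with rfl | hy
        · simp [haU]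
        · have : y ∉ U := fun h => hUt h hy
          simp only [if_neg this]
          exact h2 y hy
      · intro y
        by_cases hy : y = a
        · have : (fun x => if x ∈ U then a else c x) ⁻¹' {y} = U ∪ c ⁻¹' {y} := by
            ext x
            simp only [mem_preimage, mem_singleton_iff, mem_union]
            by_cases hx : x ∈ U
            · simp [hx, hy]
            · simp [hx]
          rw [this]
          exact hU.union (h3 y)
        · have : (fun x => if x ∈ U then a else c x) ⁻¹' {y} = c ⁻¹' {y} \ U := by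
            ext x
            simp only [mem_preimage, mem_singleton_iff, mem_sdiff]
            by_cases hx : x ∈ U
            · simp [hx, Ne.symm hy]
            · simp [hx]
          rw [this]
          exact (h3 y).diff hU
    · rw [Set.not_nonempty_iff_eq_empty] at ht
      subst ht
      refine ⟨fun _ => a, fun _ => Or.inl rfl, ?_, ?_⟩
      · intro y hy
        rcases hy with rfl | hy
        · rfl
        · exact hy.elim
      · intro y
        by_cases hy : a = y
        · have : (fun _ : K => a) ⁻¹' {y} = univ := by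
            ext x; simp [hy]
          rw [this]
          exact isClopen_univ
        · have : (fun _ : K => a) ⁻¹' {y} = ∅ := by
            ext x; simp [hy]
          rw [this]
          exact isClopen_empty

theorem col_nonempty [CompactSpace K] [T2Space K] [TotallyDisconnectedSpace K]
    (hL : {x : K | ¬ Io x}.Finite) (hinf : Infinite K) : (Col K).Nonempty := by
  have hne : {x : K | ¬ Io x}.Nonempty := by
    by_contra h
    rw [Set.not_nonempty_iff_eq_empty] at h
    have : (univ : Set K).Finite := fin_io isClosed_univ fun x _ => by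
      by_contra hx
      have : x ∈ ({x : K | ¬ Io x} : Set K) := hx
      rw [h] at this
      exact this
    exact Set.infinite_univ this
  obtain ⟨c, h1, h2, h3⟩ := exists_retract _ hL hne
  exact ⟨c, fun x => h1 x, fun y hy => h2 y hy, h3⟩

theorem criterion_mp {c0 : K → K} (hc0 : c0 ∈ Col K) {f g : K ≃ₜ K} (h : Cj f g) :
    ∃ d ∈ Col K, ∃ σ : Equiv.Perm K, (∀ x, Io x → σ x = x) ∧
      CIso f.toEquiv g.toEquiv (fun x => (σ (c0 x), Io x)) (fun x => (d x, Io x)) := by
  classical
  obtain ⟨h, hh⟩ := h
  obtain ⟨k1, k2, k3⟩ := hc0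
  have hio : ∀ x, ¬ Io (h x) ↔ ¬ Io x := fun x => not_congr (io_map h x)
  have hio' : ∀ x, ¬ Io (h.symm x) ↔ ¬ Io x := fun x => not_congr (io_map h.symm x)
  refine ⟨fun x => h (c0 (h.symm x)), ⟨?_, ?_, ?_⟩,
    Equiv.Perm.ofSubtype (Equiv.Perm.subtypePerm h.toEquiv (p := fun x => ¬ Io x) hio), ?_,
    h.toEquiv, ?_, ?_⟩
  · intro x
    rw [hio]
    exact k1 _
  · intro y hy
    show h (c0 (h.symm y)) = y
    rw [k2 _ ((hio' y).2 hy), h.apply_symm_apply]
  · intro y
    have : (fun x => h (c0 (h.symm x))) ⁻¹' {y} = h.symm ⁻¹' (c0 ⁻¹' {h.symm y}) := by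
      ext x
      simp only [mem_preimage, mem_singleton_iff]
      constructor
      · intro hx
        rw [← hx, h.symm_apply_apply]
      · intro hx
        rw [hx, h.apply_symm_apply]
    rw [this]
    exact (k3 _).preimage h.symm.continuous
  · intro x hx
    exact Equiv.Perm.ofSubtype_apply_of_not_mem _ (not_not.2 hx)
  · intro x
    exact hh x
  · intro x
    show (h (c0 (h.symm (h x))), Io (h x)) = (Equiv.Perm.ofSubtype _ (c0 x), Io x)
    have e0 : Equiv.Perm.ofSubtype (Equiv.Perm.subtypePerm h.toEquiv (p := fun x => ¬ Io x) hio)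
        (c0 x) = h (c0 x) :=
      Equiv.Perm.ofSubtype_apply_of_mem (p := fun x => ¬ Io x) (a := c0 x) _ (k1 x)
    have e1 : Io (h x) = Io x := propext (io_map h x)
    rw [h.symm_apply_apply, e0, e1]

theorem criterion_mpr [CompactSpace K] [T2Space K] {c0 d : K → K} (hc0 : c0 ∈ Col K)
    (hd : d ∈ Col K) {f g : K ≃ₜ K} {σ : Equiv.Perm K}
    (h : CIso f.toEquiv g.toEquiv (fun x => (σ (c0 x), Io x)) (fun x => (d x, Io x))) :
    Cj f g := by
  obtain ⟨h, h1, h2⟩ := h
  have e1 : ∀ x, d (h x) = σ (c0 x) := fun x => congrArg Prod.fst (h2 x)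
  have e2 : ∀ x, Io (h x) = Io x := fun x => congrArg Prod.snd (h2 x)
  obtain ⟨k1, k2, k3⟩ := hc0
  obtain ⟨l1, l2, l3⟩ := hd
  have hcont : Continuous h := by
    rw [continuous_iff_continuousAt]
    intro y
    by_cases hy : Io y
    · have : nhds y = pure y := (isOpen_singleton_iff_nhds_eq_pure y).1 hy
      unfold ContinuousAt
      rw [this]
      exact tendsto_pure_nhds h y
    · have hwy : ¬ Io (h y) := by rw [e2]; exact hy
      have hw : h y = σ y := by
        have a1 := e1 y
        rw [l2 _ hwy, k2 y hy] at a1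
        exact a1
      rw [ContinuousAt, tendsto_nhds]
      intro V hV hyV
      have hD : (d ⁻¹' {h y} \ V).Finite := by
        refine fin_io ((l3 _).isClosed.sdiff hV) fun z hz => ?_
        by_contra hzi
        apply hz.2
        have a1 : d z = h y := hz.1
        rw [l2 z hzi] at a1
        rw [a1]
        exact hyV
      have hF : (h ⁻¹' (d ⁻¹' {h y} \ V)).Finite := hD.preimage h.injective.injOn
      have hyF : y ∉ h ⁻¹' (d ⁻¹' {h y} \ V) := fun hyF => hyF.2 hyV
      have hmem : c0 ⁻¹' {y} \ (h ⁻¹' (d ⁻¹' {h y} \ V)) ∈ nhds y := by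
        refine ((k3 y).isOpen.sdiff hF.isClosed).mem_nhds ⟨k2 y hy, hyF⟩
      refine Filter.mem_of_superset hmem ?_
      rintro x ⟨hx1, hx2⟩
      have b1 : c0 x = y := hx1
      have b2 : d (h x) = h y := by rw [e1, b1, hw]
      by_contra hxV
      exact hx2 ⟨b2, hxV⟩
  exact ⟨Continuous.homeoOfEquivCompactToT2 hcont, fun x => h1 x⟩

end

theorem t_F1 : S_F1 := by
  intro K _ _ _ _ _ hL
  refine ⟨K_countable hL, col_countable hL, col_nonempty hL, ?_⟩
  intro c0 hc0 f g
  constructor
  · intro h
    exact criterion_mp hc0 h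
  · rintro ⟨d, hd, σ, _, h⟩
    exact criterion_mpr hc0 hd h

end Pool.Agent.H84.KK
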